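import Mathlib

/-!
# Sums of distinct values of a sequence with `s (k + 2) ≥ s (k + 1) + s k`

For such a nondecreasing unbounded sequence of natural numbers all large numbers are sums of distinct
values if and only if all numbers are, if and only if `s n ≤ 1 + ∑ v`, `v` in `{s k : k < n}`, for all `n`.
-/

set_option autoImplicit false

open Finset

namespace Pool.Agent.U331.GR

/-- the values `s k`, `k < n` -/
def V (s : ℕ → ℕ) (n : ℕ) : Finset ℕ := (range n).image s

/-- the sum of the different values `s k`, `k < n` -/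
def T (s : ℕ → ℕ) (n : ℕ) : ℕ := ∑ v ∈ V s n, v

/-- `m` is a sum of distinct values of `s` -/
def Rep (s : ℕ → ℕ) (m : ℕ) : Prop := ∃ F : Finset ℕ, (∀ v ∈ F, ∃ k, v = s k) ∧ ∑ v ∈ F, v = m

theorem V_succ (s : ℕ → ℕ) (n : ℕ) : V s (n + 1) = insert (s n) (V s n) := by
  unfold V
  rw [range_add_one, image_insert]

theorem T_succ_of_mem {s : ℕ → ℕ} {n : ℕ} (h : s n ∈ V s n) : T s (n + 1) = T s n := by
  unfold T
  rw [V_succ, insert_eq_of_mem h]

theorem T_succ_of_notMem {s : ℕ → ℕ} {n : ℕ} (h : s n ∉ V s n) : T s (n + 1) = s n + T s n := by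
  unfold T
  rw [V_succ, sum_insert h]

theorem T_succ_le (s : ℕ → ℕ) (n : ℕ) : T s (n + 1) ≤ T s n + s n := by
  by_cases h : s n ∈ V s n
  · rw [T_succ_of_mem h]
    omega
  · rw [T_succ_of_notMem h]
    omega

theorem T_mono (s : ℕ → ℕ) (n : ℕ) : T s n ≤ T s (n + 1) := by
  by_cases h : s n ∈ V s n
  · rw [T_succ_of_mem h]
  · rw [T_succ_of_notMem h]
    omega

theorem le_T (s : ℕ → ℕ) (n : ℕ) : s n ≤ T s (n + 1) := by
  have h : s n ∈ V s (n + 1) := by
    rw [V_succ]
    exact mem_insert_self _ _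
  exact single_le_sum (f := fun v => v) (fun _ _ => Nat.zero_le _) h

/-- Brown's criterion -/
theorem rep_of_le {s : ℕ → ℕ} (h : ∀ n, s n ≤ 1 + T s n) (n : ℕ) :
    ∀ m ≤ T s n, ∃ F ⊆ V s n, ∑ v ∈ F, v = m := by
  induction n with
  | zero =>
    intro m hm
    have : T s 0 = 0 := by simp [T, V]
    exact ⟨∅, empty_subset _, by rw [sum_empty]; omega⟩
  | succ n ih =>
    intro m hm
    by_cases hmem : s n ∈ V s n
    · rw [T_succ_of_mem hmem] at hm
      obtain ⟨F, hF, hs⟩ := ih m hm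
      exact ⟨F, hF.trans (by rw [V_succ]; exact subset_insert _ _), hs⟩
    · rw [T_succ_of_notMem hmem] at hm
      rcases le_or_gt m (T s n) with hle | hgt
      · obtain ⟨F, hF, hs⟩ := ih m hle
        exact ⟨F, hF.trans (by rw [V_succ]; exact subset_insert _ _), hs⟩
      · have h1 := h n
        obtain ⟨F, hF, hs⟩ := ih (m - s n) (by omega)
        refine ⟨insert (s n) F, ?_, ?_⟩
        · rw [V_succ]
          exact insert_subset_insert _ hF
        · rw [sum_insert fun hh => hmem (hF hh), hs]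
          omega

theorem rep_all {s : ℕ → ℕ} (hu : ∀ B, ∃ n, B ≤ s n) (h : ∀ n, s n ≤ 1 + T s n) (m : ℕ) : Rep s m := by
  obtain ⟨n, hn⟩ := hu m
  obtain ⟨F, hF, hs⟩ := rep_of_le h (n + 1) m (hn.trans (le_T s n))
  refine ⟨F, fun v hv => ?_, hs⟩
  obtain ⟨k, _, hk⟩ := mem_image.1 (hF hv)
  exact ⟨k, hk.symm⟩

/-- the missing numbers -/
def NN (s : ℕ → ℕ) (a : ℕ) : ℕ → ℕ
  | 0 => 1 + T s a
  | j + 1 => NN s a j + s (a + 2 * j + 1)

section
variable {s : ℕ → ℕ} (hmono : Monotone s) (hfib : ∀ k, s (k + 1) + s k ≤ s (k + 2)) {a : ℕ}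
  (ha : 1 + T s a < s a)
include hfib ha

theorem NN_lt (j : ℕ) : NN s a j < s (a + 2 * j) := by
  induction j with
  | zero => exact ha
  | succ j ih =>
    have h1 := hfib (a + 2 * j)
    have e : a + 2 * (j + 1) = a + 2 * j + 2 := by ring
    rw [e]
    show NN s a j + s (a + 2 * j + 1) < _
    omega

include hmono

omit ha in
theorem T_lt_NN (j : ℕ) : T s (a + 2 * j + 1) < NN s a (j + 1) := by
  induction j with
  | zero =>
    have h1 := T_succ_le s a
    have h2 : s a ≤ s (a + 1) := hmono (by omega)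
    show T s (a + 1) < 1 + T s a + s (a + 1)
    omega
  | succ j ih =>
    have e : a + 2 * (j + 1) + 1 = a + 2 * j + 1 + 1 + 1 := by ring
    have h1 := T_succ_le s (a + 2 * j + 1 + 1)
    have h2 := T_succ_le s (a + 2 * j + 1)
    have h3 := hfib (a + 2 * j + 1)
    have e3 : a + 2 * j + 1 + 2 = a + 2 * (j + 1) + 1 := by ring
    rw [e3] at h3
    rw [e]
    show _ < NN s a (j + 1) + s (a + 2 * (j + 1) + 1)
    omega

omit hfib ha in
theorem subset_of_lt {F : Finset ℕ} (hF : ∀ v ∈ F, ∃ k, v = s k) {n : ℕ} (h : ∑ v ∈ F, v < s n) :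
    F ⊆ V s n := by
  intro v hv
  obtain ⟨k, hk⟩ := hF v hv
  have h1 : v ≤ ∑ v ∈ F, v := single_le_sum (f := fun v => v) (fun _ _ => Nat.zero_le _) hv
  have h2 : k < n := by
    by_contra hh
    push Not at hh
    have := hmono hh
    omega
  exact mem_image.2 ⟨k, mem_range.2 h2, hk.symm⟩

theorem not_rep (j : ℕ) : ¬ Rep s (NN s a j) := by
  induction j with
  | zero =>
    rintro ⟨F, hF, hs⟩
    have h1 := subset_of_lt hmono hF (n := a) (by rw [hs]; exact NN_lt hfib ha 0)
    have h2 : ∑ v ∈ F, v ≤ T s a := sum_le_sum_of_subset h1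
    have h3 : NN s a 0 = 1 + T s a := rfl
    omega
  | succ j ih =>
    rintro ⟨F, hF, hs⟩
    have h0 := NN_lt hfib ha (j + 1)
    have e : a + 2 * (j + 1) = a + 2 * j + 1 + 1 := by ring
    rw [e] at h0
    have h1 := subset_of_lt hmono hF (n := a + 2 * j + 1 + 1) (by rw [hs]; exact h0)
    have hlt := T_lt_NN (a := a) hmono hfib j
    by_cases hmem : s (a + 2 * j + 1) ∈ F
    · refine ih ⟨F.erase (s (a + 2 * j + 1)), fun v hv => hF v (mem_of_mem_erase hv), ?_⟩
      have h2 := sum_erase_add F (fun v => v) hmem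
      have h3 : NN s a (j + 1) = NN s a j + s (a + 2 * j + 1) := rfl
      omega
    · have h2 : F ⊆ V s (a + 2 * j + 1) := by
        intro v hv
        have h3 := h1 hv
        rw [V_succ, mem_insert] at h3
        rcases h3 with h3 | h3
        · exact absurd (h3 ▸ hv) hmem
        · exact h3
      have h4 : ∑ v ∈ F, v ≤ T s (a + 2 * j + 1) := sum_le_sum_of_subset h2
      omega

omit hmono hfib ha in
theorem le_NN (hpos : ∀ k, a ≤ k → 1 ≤ s k) (j : ℕ) : j ≤ NN s a j := by
  induction j with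
  | zero => exact Nat.zero_le _
  | succ j ih =>
    have h1 := hpos (a + 2 * j + 1) (by omega)
    show j + 1 ≤ NN s a j + s (a + 2 * j + 1)
    omega

end

/-- For a nondecreasing unbounded sequence with `s (k + 2) ≥ s (k + 1) + s k`: all large numbers are
sums of distinct values iff `s n ≤ 1 + ∑ v` for all `n`. -/
theorem complete_iff {s : ℕ → ℕ} (hmono : Monotone s) (hfib : ∀ k, s (k + 1) + s k ≤ s (k + 2))
    (hu : ∀ B, ∃ n, B ≤ s n) :
    (∃ N : ℕ, ∀ m ≥ N, Rep s m) ↔ ∀ n, s n ≤ 1 + T s n := by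
  constructor
  · rintro ⟨N, hN⟩ a
    by_contra ha
    push Not at ha
    have h1 := le_NN (s := s) (a := a) (fun k hk => by
      have := hmono hk
      omega) N
    exact not_rep hmono hfib ha N (hN _ h1)
  · intro h
    exact ⟨0, fun m _ => rep_all hu h m⟩

end Pool.Agent.U331.GR
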