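import Pool.Agent.U331.GR.Core

/-! # The sequences `⌊t α^n⌋` for `α` at least the golden ratio -/

set_option autoImplicit false

open Finset Filter

namespace Pool.Agent.U331.GR

/-- `⌊t α^n⌋` -/
noncomputable def b (t α : ℝ) (n : ℕ) : ℕ := ⌊t * α ^ n⌋₊

section
variable {t α : ℝ}

theorem golden_sq (hα : (1 + Real.sqrt 5) / 2 ≤ α) : α + 1 ≤ α ^ 2 := by
  have h5 : Real.sqrt 5 ^ 2 = 5 := Real.sq_sqrt (by norm_num)
  have h0 : 0 ≤ Real.sqrt 5 := Real.sqrt_nonneg _
  nlinarith

theorem golden_gt (hα : (1 + Real.sqrt 5) / 2 ≤ α) : 8 / 5 < α := by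
  have h5 : (11 : ℝ) / 5 < Real.sqrt 5 := by
    rw [Real.lt_sqrt (by norm_num)]
    norm_num
  linarith

theorem b_le (ht : 0 < t) (hα : 1 < α) (n : ℕ) : (b t α n : ℝ) ≤ t * α ^ n :=
  Nat.floor_le (by positivity)

theorem lt_b (n : ℕ) : t * α ^ n < b t α n + 1 := Nat.lt_floor_add_one _

theorem b_mono (ht : 0 < t) (hα : 1 < α) : Monotone (b t α) := by
  intro m n h
  refine Nat.floor_mono ?_
  exact mul_le_mul_of_nonneg_left (pow_le_pow_right₀ hα.le h) ht.le

theorem b_fib (ht : 0 < t) (hα : (1 + Real.sqrt 5) / 2 ≤ α) (k : ℕ) :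
    b t α (k + 1) + b t α k ≤ b t α (k + 2) := by
  have h1 := golden_gt hα
  have hα1 : 1 < α := by linarith
  have h2 := golden_sq hα
  refine Nat.le_floor ?_
  push_cast
  have h3 := b_le ht hα1 k
  have h4 := b_le ht hα1 (k + 1)
  have hp : 0 < t * α ^ k := by positivity
  have e : t * α ^ (k + 2) = t * α ^ k * α ^ 2 := by ring
  have e1 : t * α ^ (k + 1) = t * α ^ k * α := by ring
  rw [e]
  rw [e1] at h4
  nlinarith [mul_le_mul_of_nonneg_left h2 hp.le]

theorem b_unb (ht : 0 < t) (hα : 1 < α) (B : ℕ) : ∃ n, B ≤ b t α n := by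
  obtain ⟨n, hn⟩ := pow_unbounded_of_one_lt ((B : ℝ) / t) hα
  refine ⟨n, Nat.le_floor ?_⟩
  rw [div_lt_iff₀ ht] at hn
  linarith

theorem b_next (hα : 1 < α) (n : ℕ) : t * α ^ (n + 1) < α * (b t α n + 1) := by
  have h := lt_b (t := t) (α := α) n
  have e : t * α ^ (n + 1) = α * (t * α ^ n) := by ring
  rw [e]
  exact mul_lt_mul_of_pos_left h (by linarith)

/-- for large terms the condition is automatic -/
theorem auto (ht : 0 < t) (hα : (1 + Real.sqrt 5) / 2 ≤ α) (hα2 : α < 2) {n : ℕ}
    (hn : b t α n ≤ 1 + T (b t α) n) (h : α ≤ (2 - α) * b t α n) :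
    b t α (n + 1) ≤ 1 + T (b t α) (n + 1) := by
  have h1 := golden_gt hα
  have hα1 : 1 < α := by linarith
  have hb4 : (4 : ℝ) < b t α n := by
    by_contra hh
    push Not at hh
    nlinarith
  have hb4' : 4 < b t α n := by exact_mod_cast hb4
  have hnot : b t α n ∉ V (b t α) n := by
    intro hmem
    obtain ⟨k, hk, hkn⟩ := mem_image.1 hmem
    rw [mem_range] at hk
    obtain ⟨m, rfl⟩ : ∃ m, n = m + 1 := ⟨n - 1, by omega⟩
    have h2 : b t α k ≤ b t α m := b_mono ht hα1 (by omega)
    have h3 : b t α m ≤ b t α (m + 1) := b_mono ht hα1 (by omega)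
    have h4 : b t α m = b t α (m + 1) := by omega
    have h5 := b_le ht hα1 m
    have h6 := lt_b (t := t) (α := α) (m + 1)
    have e : t * α ^ (m + 1) = α * (t * α ^ m) := by ring
    rw [e] at h6
    have h7 : (b t α m : ℝ) = b t α (m + 1) := by exact_mod_cast h4
    have h8 : α * (b t α m : ℝ) ≤ α * (t * α ^ m) := mul_le_mul_of_nonneg_left h5 (by linarith)
    nlinarith
  have h2 := b_next (t := t) hα1 n
  have h3 : (b t α (n + 1) : ℝ) < 2 * b t α n := by
    have := b_le ht hα1 (n + 1)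
    nlinarith
  have h4 : b t α (n + 1) < 2 * b t α n := by exact_mod_cast h3
  have h5 := T_succ_of_notMem hnot
  omega

/-- only small terms have to be tested -/
theorem finite_test (ht : 0 < t) (hα : (1 + Real.sqrt 5) / 2 ≤ α) (hα2 : α < 2) :
    (∀ n, b t α n ≤ 1 + T (b t α) n) ↔ b t α 0 ≤ 1 ∧
      ∀ n, (2 - α) * b t α n < α → b t α (n + 1) ≤ 1 + T (b t α) (n + 1) := by
  have hT : T (b t α) 0 = 0 := by simp [T, V]
  constructor
  · intro h
    refine ⟨?_, fun n _ => h (n + 1)⟩
    have := h 0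
    omega
  · rintro ⟨h0, h⟩ n
    induction n with
    | zero => omega
    | succ n ih =>
      by_cases hn : (2 - α) * b t α n < α
      · exact h n hn
      · push Not at hn
        exact auto ht hα hα2 ih hn

theorem finite_set (ht : 0 < t) (hα : 1 < α) (hα2 : α < 2) :
    {n : ℕ | (2 - α) * b t α n < α}.Finite := by
  obtain ⟨B, hB⟩ := exists_nat_gt (α / (2 - α))
  obtain ⟨m, hm⟩ := b_unb ht hα B
  refine (Set.finite_lt_nat m).subset ?_
  intro n hn
  by_contra hh
  have hh' : m ≤ n := by simpa using hh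
  have h1 : (b t α m : ℝ) ≤ b t α n := by exact_mod_cast b_mono ht hα hh'
  have h2 : (B : ℝ) ≤ b t α m := by exact_mod_cast hm
  rw [div_lt_iff₀ (by linarith)] at hB
  have h3 : (2 - α) * b t α n < α := hn
  have h4 : (B : ℝ) * (2 - α) ≤ b t α n * (2 - α) := mul_le_mul_of_nonneg_right (h2.trans h1) (by linarith)
  linarith

theorem subset_sum {s : ℕ → ℕ} {n : ℕ} {W : Finset ℕ} (h : ∀ w ∈ W, ∃ k < n, s k = w) :
    ∑ w ∈ W, w ≤ T s n := by
  refine sum_le_sum_of_subset fun w hw => ?_
  obtain ⟨k, hk, hkw⟩ := h w hw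
  exact mem_image.2 ⟨k, mem_range.2 hk, hkw⟩

/-- the range `α ≤ 5/3` -/
theorem five_thirds (ht : 0 < t) (hα : (1 + Real.sqrt 5) / 2 ≤ α) (hα2 : α ≤ 5 / 3) :
    (∀ n, b t α n ≤ 1 + T (b t α) n) ↔ (∃ n, b t α n = 1) ∧ ∃ n, b t α n = 2 := by
  have hg := golden_gt hα
  have hα1 : 1 < α := by linarith
  have hmono := b_mono ht hα1
  constructor
  · intro h
    have key : ∀ m : ℕ, Rep (b t α) m := rep_all (b_unb ht hα1) h
    constructor
    · obtain ⟨F, hF, hs⟩ := key 1
      by_contra hno
      have h1 : ∀ v ∈ F, v = 0 := by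
        intro v hv
        have h2 : v ≤ ∑ v ∈ F, v := single_le_sum (f := fun v => v) (fun _ _ => Nat.zero_le _) hv
        obtain ⟨k, hk⟩ := hF v hv
        have h3 : v ≠ 1 := fun h4 => hno ⟨k, by omega⟩
        omega
      rw [sum_eq_zero h1] at hs
      omega
    · obtain ⟨F, hF, hs⟩ := key 2
      by_contra hno
      have h1 : F ⊆ range 2 := by
        intro v hv
        have h2 : v ≤ ∑ v ∈ F, v := single_le_sum (f := fun v => v) (fun _ _ => Nat.zero_le _) hv
        obtain ⟨k, hk⟩ := hF v hv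
        have h3 : v ≠ 2 := fun h4 => hno ⟨k, by omega⟩
        rw [mem_range]
        omega
      have h2 : ∑ v ∈ F, v ≤ ∑ v ∈ range 2, v := sum_le_sum_of_subset h1
      have h3 : ∑ v ∈ range 2, v = 1 := by decide
      omega
  · rintro ⟨⟨i, hi⟩, j, hj⟩
    rw [finite_test ht hα (by linarith)]
    refine ⟨by have := hmono (Nat.zero_le i); omega, fun n hn => ?_⟩
    have hb : b t α n ≤ 4 := by
      by_contra hh
      push Not at hh
      have h5 : (5 : ℝ) ≤ b t α n := by exact_mod_cast hh
      nlinarith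
    have hlt := b_next (t := t) hα1 n
    have hle := b_le ht hα1 (n + 1)
    have hup : ∀ c d : ℕ, b t α n = c → (5 / 3 : ℝ) * (c + 1) ≤ d + 1 → b t α (n + 1) ≤ d := by
      intro c d hc hcd
      have h1 : (b t α (n + 1) : ℝ) < d + 1 := by
        rw [hc] at hlt
        have : α * ((c : ℝ) + 1) ≤ 5 / 3 * ((c : ℝ) + 1) := mul_le_mul_of_nonneg_right hα2 (by positivity)
        linarith
      have h2 : b t α (n + 1) < d + 1 := by exact_mod_cast h1
      omega
    have hij : ∀ k c : ℕ, b t α k = c → c ≤ b t α n → k < n + 1 ∨ c = b t α n := by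
      intro k c hk hc
      by_contra hh
      push Not at hh
      have := hmono (show n ≤ k by omega)
      omega
    rcases (show b t α n = 0 ∨ b t α n = 1 ∨ b t α n = 2 ∨ b t α n = 3 ∨ b t α n = 4 by omega) with
      h | h | h | h | h
    · have := hup 0 1 h (by norm_num)
      omega
    · have h1 := hup 1 3 h (by norm_num)
      have h2 : 1 ≤ T (b t α) (n + 1) := by
        have := le_T (b t α) n
        omega
      have h3 : b t α (n + 1) ≠ 3 := by
        intro h3
        rcases Nat.lt_or_ge n j with h4 | h4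
        · have := hmono (show n + 1 ≤ j by omega)
          omega
        · have := hmono h4
          omega
      omega
    · have h1 := hup 2 4 h (by norm_num)
      have h2 : ∑ w ∈ ({1, 2} : Finset ℕ), w ≤ T (b t α) (n + 1) := by
        refine subset_sum fun w hw => ?_
        simp only [mem_insert, mem_singleton] at hw
        rcases hw with rfl | rfl
        · refine ⟨i, ?_, hi⟩
          rcases hij i 1 hi (by omega) with h5 | h5 <;> omega
        · exact ⟨n, by omega, h⟩
      have h3 : ∑ w ∈ ({1, 2} : Finset ℕ), w = 3 := by decide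
      omega
    · have h1 := hup 3 6 h (by norm_num)
      have h2 : ∑ w ∈ ({1, 2, 3} : Finset ℕ), w ≤ T (b t α) (n + 1) := by
        refine subset_sum fun w hw => ?_
        simp only [mem_insert, mem_singleton] at hw
        rcases hw with rfl | rfl | rfl
        · refine ⟨i, ?_, hi⟩
          rcases hij i 1 hi (by omega) with h5 | h5 <;> omega
        · refine ⟨j, ?_, hj⟩
          rcases hij j 2 hj (by omega) with h5 | h5 <;> omega
        · exact ⟨n, by omega, h⟩
      have h3 : ∑ w ∈ ({1, 2, 3} : Finset ℕ), w = 6 := by decide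
      omega
    · have h1 := hup 4 8 h (by norm_num)
      have h2 : ∑ w ∈ ({1, 2, 4} : Finset ℕ), w ≤ T (b t α) (n + 1) := by
        refine subset_sum fun w hw => ?_
        simp only [mem_insert, mem_singleton] at hw
        rcases hw with rfl | rfl | rfl
        · refine ⟨i, ?_, hi⟩
          rcases hij i 1 hi (by omega) with h5 | h5 <;> omega
        · refine ⟨j, ?_, hj⟩
          rcases hij j 2 hj (by omega) with h5 | h5 <;> omega
        · exact ⟨n, by omega, h⟩
      have h3 : ∑ w ∈ ({1, 2, 4} : Finset ℕ), w = 7 := by decide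
      omega

end

end Pool.Agent.U331.GR
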